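import Mathlib
import Pool.Agent.Y627.SP.All
import Pool.Agent.Y627.SP.UnifD

/-!
# The spectrum of the uniform exponent `ŵ_n^*` contains the interval `(1, n]`

For every non-decreasing sequence of real numbers `w_n ≥ n` there is a transcendental real number `ξ`
with `w_n(ξ) = w_n` for all `n` and `ŵ_n^*(ξ) = w_n / (w_n - n + 1)` for all `n` with `w_n = w_1` or
`w_n = n`. For `w_n = max(w, n)` this describes all uniform exponents of `ξ`, and for fixed `n ≥ 2` the
values for `w ≥ n` fill the interval `(1, n]`.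
-/

set_option autoImplicit false

namespace Pool.Agent.Results.MP_d6cb56_nt.UniformStarSpectrum

open Polynomial

/-- The naive height of an integer polynomial: the maximum absolute value of its coefficients. -/
def height (P : ℤ[X]) : ℕ := P.support.sup (fun i => (P.coeff i).natAbs)

/-- Mahler's exponent `w_n(ξ)`, in the extended reals: the supremum of the real `w` for which
infinitely many integer polynomials `P` of degree at most `n` satisfy `0 < |P(ξ)| ≤ H(P) ^ (-w)`. -/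
noncomputable def mahler (n : ℕ) (ξ : ℝ) : EReal :=
  sSup {W : EReal | ∃ w : ℝ, W = (w : EReal) ∧
    {P : ℤ[X] | P.natDegree ≤ n ∧ 0 < |aeval ξ P| ∧
      |aeval ξ P| ≤ (height P : ℝ) ^ (-w)}.Infinite}

/-- `w` is admissible: for every sufficiently large real `X` there is a real algebraic number `α` of
degree at most `n` with `H(α) ≤ X` and `0 < |ξ - α| ≤ H(α)⁻¹ X ^ (-w)`. The degree and the height of
`α` are the degree and the height of the irreducible integer polynomial `P` with root `α` (it is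
unique up to sign). -/
def Admissible (n : ℕ) (ξ w : ℝ) : Prop :=
  ∃ X₀ : ℝ, ∀ X : ℝ, X₀ ≤ X → ∃ (α : ℝ) (P : ℤ[X]), Irreducible P ∧ aeval α P = 0 ∧
    P.natDegree ≤ n ∧ (height P : ℝ) ≤ X ∧ 0 < |ξ - α| ∧
    |ξ - α| ≤ (height P : ℝ)⁻¹ * X ^ (-w)

/-- The uniform exponent `ŵ_n^*(ξ)`, in the extended reals. -/
noncomputable def uniformStar (n : ℕ) (ξ : ℝ) : EReal :=
  sSup {W : EReal | ∃ w : ℝ, W = (w : EReal) ∧ Admissible n ξ w}

/-- The spectrum of `ŵ_n^*`: the set of its values at the transcendental real numbers. -/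
def uniformStarSpectrum (n : ℕ) : Set EReal :=
  {W | ∃ ξ : ℝ, Transcendental ℚ ξ ∧ uniformStar n ξ = W}

/-- (A) For every non-decreasing sequence of real numbers `w_n ≥ n` (`n ≥ 1`) there is a transcendental
real number `ξ` with `w_n(ξ) = w_n` for all `n ≥ 1` and `ŵ_n^*(ξ) = w_n / (w_n - n + 1)` for all
`n ≥ 1` with `w_n = w_1` or `w_n = n`.
(B) In particular, for every real `w ≥ 1` there is a transcendental real number `ξ` such that for all
`n ≥ 1`: `w_n(ξ) = max(w, n)`, and `ŵ_n^*(ξ) = w / (w - n + 1)` if `n ≤ w`, `ŵ_n^*(ξ) = n` if `n ≥ w`.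
(C) For every `n ≥ 1` the spectrum of `ŵ_n^*` contains every real number `v` with `1 < v ≤ n`. -/
theorem result :
    (∀ w : ℕ → ℝ, (∀ n : ℕ, 1 ≤ n → (n : ℝ) ≤ w n) → (∀ i j : ℕ, 1 ≤ i → i ≤ j → w i ≤ w j) →
      ∃ ξ : ℝ, Transcendental ℚ ξ ∧ ∀ n : ℕ, 1 ≤ n → mahler n ξ = (w n : EReal) ∧
        ((w n = w 1 ∨ w n = n) → uniformStar n ξ = ((w n / (w n - n + 1) : ℝ) : EReal))) ∧
    (∀ w : ℝ, 1 ≤ w → ∃ ξ : ℝ, Transcendental ℚ ξ ∧ ∀ n : ℕ, 1 ≤ n →
      mahler n ξ = ((max w n : ℝ) : EReal) ∧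
      ((n : ℝ) ≤ w → uniformStar n ξ = ((w / (w - n + 1) : ℝ) : EReal)) ∧
      (w ≤ n → uniformStar n ξ = (n : EReal))) ∧
    (∀ n : ℕ, 1 ≤ n → ∀ v : ℝ, 1 < v → v ≤ n → (v : EReal) ∈ uniformStarSpectrum n) := by
  have hA : ∀ w : ℕ → ℝ, (∀ n : ℕ, 1 ≤ n → (n : ℝ) ≤ w n) →
      (∀ i j : ℕ, 1 ≤ i → i ≤ j → w i ≤ w j) →
      ∃ ξ : ℝ, Transcendental ℚ ξ ∧ ∀ n : ℕ, 1 ≤ n → mahler n ξ = (w n : EReal) ∧
        ((w n = w 1 ∨ w n = n) → uniformStar n ξ = ((w n / (w n - n + 1) : ℝ) : EReal)) := by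
    intro w hw1 hw2
    obtain ⟨ξ, -, h1, -, h3⟩ := Pool.Agent.Y627.SP.all_deg (fun _ => 0) w hw1 hw2
    have hroot := Pool.Agent.Y627.SP.no_root ξ w h1
    refine ⟨ξ, Pool.Agent.Y627.SP.trans_of_no_root ξ hroot, fun n hn => ?_⟩
    have hnw := hw1 n hn
    have hn1 : (1 : ℝ) ≤ n := by exact_mod_cast hn
    have f1 := h1 n hn
    have f3 := h3 1 le_rfl
    have f3n := h3 n hn
    constructor
    · exact le_antisymm (Pool.Agent.W71.wM_le ξ (w n) f1)
        (Pool.Agent.Y627.SP.wM_ge ξ (w n) (by linarith) hroot f3n)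
    intro hcase
    have hg : 1 ≤ w n - n + 1 := by linarith
    have hg0 : 0 < w n - n + 1 := by linarith
    have hq0 : 0 < w n / (w n - n + 1) := by
      have : 0 < w n := by linarith
      positivity
    apply le_antisymm
    · apply sSup_le
      rintro W ⟨r, rfl, X₀, hX₀⟩
      rw [EReal.coe_le_coe_iff]
      by_contra hcon
      push Not at hcon
      have hr : 0 < r := hq0.trans hcon
      have hwr : w n < r * (w n - n + 1) := by rwa [div_lt_iff₀ hg0] at hcon
      obtain ⟨X, hX, hXall⟩ : ∃ X : ℝ, X₀ ≤ X ∧ ∀ (α : ℝ) (Q : ℤ[X]), Irreducible Q →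
          Q.natDegree ≤ n → aeval α Q = 0 → (Pool.Agent.W71.hgt Q : ℝ) ≤ X →
          (Pool.Agent.W71.hgt Q : ℝ)⁻¹ * X ^ (-r) < |ξ - α| := by
        rcases hcase with h | h
        · rw [← h] at f3
          exact Pool.Agent.Y627.SP.unif_upper n hn ξ (w n) r hnw hr hwr hroot f1 f3 X₀
        · refine Pool.Agent.Y627.SP.unif_upper_triv n ξ (w n) r (by linarith) ?_ hroot f1 X₀
          rw [h] at hwr ⊢
          linarith
      obtain ⟨α, P, hP, hα, hdeg, hH, -, hle⟩ := hX₀ X hX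
      have := hXall α P hP hdeg hα hH
      exact absurd hle (not_le.2 this)
    · apply le_of_forall_lt
      intro c hc
      obtain ⟨r, hr1, hr2⟩ := EReal.lt_iff_exists_real_btwn.1 (lt_of_lt_of_le hc le_rfl)
      rw [EReal.coe_lt_coe_iff] at hr2
      obtain ⟨k, rfl⟩ : ∃ k, n = k + 1 := ⟨n - 1, by omega⟩
      have hkc : w (k + 1) - ((k + 1 : ℕ) : ℝ) + 1 = w (k + 1) - k := by push_cast; ring
      rw [hkc] at hr2 hg0 hq0
      set r' : ℝ := max r (w (k + 1) / (w (k + 1) - k) / 2) with hr'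
      have hr'0 : 0 < r' := lt_of_lt_of_le (by positivity) (le_max_right _ _)
      have hr'2 : r' < w (k + 1) / (w (k + 1) - k) := max_lt hr2 (by linarith)
      have hrw : r' * (w (k + 1) - k) < w (k + 1) := by rwa [lt_div_iff₀ hg0] at hr'2
      obtain ⟨X₀, hX₀⟩ := Pool.Agent.Y627.SP.unif_lower k ξ (w (k + 1)) r'
        (by push_cast at hnw; exact hnw) hr'0 hrw hroot f1
      refine hr1.trans_le (le_trans (EReal.coe_le_coe_iff.2
        (le_max_left r (w (k + 1) / (w (k + 1) - k) / 2))) ?_)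
      apply le_sSup
      refine ⟨r', rfl, X₀, fun X hX => ?_⟩
      obtain ⟨α, Q, g1, g2, g3, g4, g5, g6⟩ := hX₀ X hX
      exact ⟨α, Q, g1, g3, g2, g4, g5, g6⟩
  have hB : ∀ w : ℝ, 1 ≤ w → ∃ ξ : ℝ, Transcendental ℚ ξ ∧ ∀ n : ℕ, 1 ≤ n →
      mahler n ξ = ((max w n : ℝ) : EReal) ∧
      ((n : ℝ) ≤ w → uniformStar n ξ = ((w / (w - n + 1) : ℝ) : EReal)) ∧
      (w ≤ n → uniformStar n ξ = (n : EReal)) := by
    intro w hw
    obtain ⟨ξ, hξ, hall⟩ := hA (fun j => max w (j : ℝ)) (fun n _ => le_max_right _ _)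
      (fun i j _ hij => max_le_max le_rfl (by exact_mod_cast hij))
    refine ⟨ξ, hξ, fun n hn => ⟨(hall n hn).1, fun hnw => ?_, fun hnw => ?_⟩⟩
    · have h := (hall n hn).2 (Or.inl (by
        simp only [Nat.cast_one]
        rw [max_eq_left hnw, max_eq_left hw]))
      simp only [max_eq_left hnw] at h
      exact h
    · have h := (hall n hn).2 (Or.inr (max_eq_right hnw))
      simp only [max_eq_right hnw] at h
      rw [h]
      have : (n : ℝ) / ((n : ℝ) - n + 1) = n := by rw [sub_self, zero_add, div_one]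
      rw [this]
      rfl
  refine ⟨hA, hB, fun n hn v hv hvn => ?_⟩
  -- the parameter
  set w : ℝ := v * (n - 1) / (v - 1) with hw
  have hv1 : 0 < v - 1 := by linarith
  have hnw : (n : ℝ) ≤ w := by
    rw [hw, le_div_iff₀ hv1]
    nlinarith
  have hn1 : (1 : ℝ) ≤ n := by exact_mod_cast hn
  obtain ⟨ξ, hξ, hall⟩ := hB w (hn1.trans hnw)
  refine ⟨ξ, hξ, ?_⟩
  rw [(hall n hn).2.1 hnw]
  congr 1
  have hg0 : 0 < w - n + 1 := by linarith
  rw [div_eq_iff hg0.ne']
  have h2 : w * (v - 1) = v * (n - 1) := by rw [hw]; field_simp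
  linarith

end Pool.Agent.Results.MP_d6cb56_nt.UniformStarSpectrum
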